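import Mathlib

namespace Pool.Agent.Results.MP_939498_co.BeyondTwoK

/-- The `0/1` vector of a subset of the coordinates. -/
def vec {n : ℕ} (A : Finset (Fin n)) : Fin n → ℝ := fun i => if i ∈ A then 1 else 0

/-- Nonzero vertices of weight at most `k` whose real span contains no unit vector. -/
def Good (n k : ℕ) (M : Finset (Finset (Fin n))) : Prop :=
  (∀ A ∈ M, A.Nonempty ∧ A.card ≤ k) ∧
  ∀ i : Fin n, Pi.single i (1 : ℝ) ∉ Submodule.span ℝ (vec '' (M : Set (Finset (Fin n))))

noncomputable def N (n k : ℕ) : ℕ :=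
  sSup {c | ∃ M : Finset (Finset (Fin n)), Good n k M ∧ M.card = c}

def m2 (n k : ℕ) : ℕ := ∑ i ∈ Finset.Icc 1 (k / 2), ((n + 1) / 2).choose i * (n / 2).choose i

lemma le_N {n k : ℕ} {M : Finset (Finset (Fin n))} (h : Good n k M) : M.card ≤ N n k := by
  apply le_csSup
  · refine ⟨Fintype.card (Finset (Fin n)), ?_⟩
    rintro c ⟨M, -, rfl⟩
    exact Finset.card_le_univ M
  · exact ⟨M, h, rfl⟩

/-- The product construction with `k - 1` ones on the left and one on the right. -/
lemma prod_le_N (a b k : ℕ) (hk : 2 ≤ k) : a.choose (k - 1) * b ≤ N (a + b) k := by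
  classical
  set f : Finset (Fin a) × Fin b → Finset (Fin (a + b)) := fun p =>
    insert (Fin.natAdd a p.2) (p.1.map (Fin.castAddEmb b)) with hf
  have hnot : ∀ p : Finset (Fin a) × Fin b, Fin.natAdd a p.2 ∉ p.1.map (Fin.castAddEmb b) := by
    intro p h
    simp only [Finset.mem_map, Fin.castAddEmb_apply] at h
    obtain ⟨x, -, hx⟩ := h
    have := congrArg Fin.val hx
    simp at this
    omega
  have hinj : Function.Injective f := by
    rintro ⟨S, i⟩ ⟨T, j⟩ h
    have h1 : i = j := by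
      have : Fin.natAdd a i ∈ f (T, j) := by
        rw [← h]
        simp [hf]
      simp only [hf, Finset.mem_insert, Finset.mem_map, Fin.castAddEmb_apply] at this
      rcases this with h2 | ⟨x, -, hx⟩
      · exact (Fin.natAdd_inj a).1 h2 
      · have := congrArg Fin.val hx
        simp at this
        omega
    have h2 : S = T := by
      ext x
      have h3 : ∀ (U : Finset (Fin a)) (l : Fin b), Fin.castAdd b x ∈ f (U, l) ↔ x ∈ U := by
        intro U l
        simp only [hf, Finset.mem_insert, Finset.mem_map, Fin.castAddEmb_apply]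
        constructor
        · rintro (h4 | ⟨z, hz, hx⟩)
          · have := congrArg Fin.val h4
            simp at this
            omega
          · rwa [← (Fin.castAdd_inj).1 hx]
        · intro hx
          exact Or.inr ⟨x, hx, rfl⟩
      rw [← h3 S i, h, h3]
    rw [h1, h2]
  set D : Finset (Finset (Fin a) × Fin b) :=
    (Finset.powersetCard (k - 1) Finset.univ) ×ˢ Finset.univ with hD
  have hcard : (D.image f).card = a.choose (k - 1) * b := by
    rw [Finset.card_image_of_injective _ hinj, hD, Finset.card_product, Finset.card_powersetCard]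
    simp
  rw [← hcard]
  apply le_N
  refine ⟨?_, ?_⟩
  · intro A hA
    rw [Finset.mem_image] at hA
    obtain ⟨p, hp, rfl⟩ := hA
    rw [hD, Finset.mem_product, Finset.mem_powersetCard] at hp
    refine ⟨⟨_, Finset.mem_insert_self _ _⟩, ?_⟩
    rw [hf]
    simp only
    rw [Finset.card_insert_of_notMem (hnot p), Finset.card_map, hp.1.2]
    omega
  · set w : Fin (a + b) → ℝ := Fin.append (fun _ => 1) (fun _ => -((k - 1 : ℕ) : ℝ)) with hw
    set φ : (Fin (a + b) → ℝ) →ₗ[ℝ] ℝ := ∑ i, w i • LinearMap.proj i with hφ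
    have hφv : ∀ x, φ x = ∑ i, w i * x i := by
      intro x
      simp [hφ]
    have hzero : ∀ x ∈ Submodule.span ℝ (vec '' ((D.image f : Finset _) : Set (Finset (Fin (a + b))))),
        φ x = 0 := by
      intro x hx
      have hle : Submodule.span ℝ (vec '' ((D.image f : Finset _) :
          Set (Finset (Fin (a + b))))) ≤ LinearMap.ker φ := by
        rw [Submodule.span_le]
        rintro _ ⟨A, hA, rfl⟩
        rw [Finset.mem_coe, Finset.mem_image] at hA
        obtain ⟨p, hp, rfl⟩ := hA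
        rw [hD, Finset.mem_product, Finset.mem_powersetCard] at hp
        rw [SetLike.mem_coe, LinearMap.mem_ker, hφv]
        have e1 : ∑ i, w i * vec (f p) i = ∑ i ∈ f p, w i := by
          simp [vec, Finset.sum_ite_mem]
        rw [e1, hf]
        simp only
        rw [Finset.sum_insert (hnot p), Finset.sum_map]
        simp [hw, hp.1.2]
      exact hle hx
    intro i hi
    have h1 := hzero _ hi
    rw [hφv] at h1
    simp only [Pi.single_apply, mul_ite, mul_one, mul_zero, Finset.sum_ite_eq', Finset.mem_univ,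
      if_true] at h1
    have hk1 : ((k - 1 : ℕ) : ℝ) ≠ 0 := by
      have : 0 < k - 1 := by omega
      positivity
    refine Fin.addCases (fun l => ?_) (fun l => ?_) i (motive := fun i => w i = 0 → False) h1
    · intro h
      simp [hw] at h
    · intro h
      simp [hw] at h
      exact hk1 (by exact_mod_cast h)

lemma tel (c r : ℕ) : ∑ l ∈ Finset.range (r + 1), (c + 1).choose (l + 1) * c.choose l =
    ∑ l ∈ Finset.range (r + 1), (c + 1).choose l * c.choose l + c.choose (r + 1) * c.choose r := by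
  induction r with
  | zero => simp; ring
  | succ r ih =>
    rw [Finset.sum_range_succ, ih, Finset.sum_range_succ _ (r + 1), Nat.choose_succ_succ c (r + 1),
      Nat.choose_succ_succ c r]
    ring

lemma half_sum (j : ℕ) :
    2 * ∑ l ∈ Finset.range (j + 1), (2 * j + 2).choose l * (2 * j + 1).choose l +
      (2 * j + 1).choose j ^ 2 = (4 * j + 3).choose (2 * j + 1) := by
  have h1 : (4 * j + 3).choose (2 * j + 1) =
      ∑ i ∈ Finset.range (2 * j + 2), (2 * j + 2).choose i * (2 * j + 1).choose i := by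
    rw [show 4 * j + 3 = (2 * j + 2) + (2 * j + 1) by ring, Nat.add_choose_eq,
      Finset.Nat.sum_antidiagonal_eq_sum_range_succ_mk]
    refine Finset.sum_congr rfl (fun i hi => ?_)
    rw [Finset.mem_range] at hi
    simp only
    rw [Nat.choose_symm (by omega)]
  have h2 : ∑ i ∈ Finset.range (2 * j + 2), (2 * j + 2).choose i * (2 * j + 1).choose i =
      ∑ i ∈ Finset.range (j + 1), (2 * j + 2).choose i * (2 * j + 1).choose i +
      ∑ l ∈ Finset.range (j + 1), (2 * j + 2).choose (l + 1) * (2 * j + 1).choose l := by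
    rw [show 2 * j + 2 = (j + 1) + (j + 1) by ring, Finset.sum_range_add]
    congr 1
    rw [← Finset.sum_range_reflect]
    refine Finset.sum_congr rfl (fun i hi => ?_)
    rw [Finset.mem_range] at hi
    rw [← Nat.choose_symm (n := j + 1 + (j + 1)) (k := i + 1) (by omega),
      ← Nat.choose_symm (n := 2 * j + 1) (k := i) (by omega)]
    congr 2 <;> omega
  rw [h1, h2, tel]
  have h3 : (2 * j + 1).choose (j + 1) = (2 * j + 1).choose j := by
    rw [← Nat.choose_symm (n := 2 * j + 1) (k := j) (by omega)]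
    congr 1
    omega
  rw [h3]
  ring

lemma growth : ∀ j : ℕ, 4 ≤ j →
    3 * (4 * j + 1).choose (2 * j) < (j + 1) * (2 * j + 1).choose j ^ 2 := by
  intro j hj
  induction j, hj using Nat.le_induction with
  | base => decide +kernel
  | succ j hj ih =>
    have y1 : (2 * j + 3).choose (j + 1) * (j + 2) = 2 * (2 * j + 3) * (2 * j + 1).choose j := by
      have a1 := Nat.add_one_mul_choose_eq (2 * j + 2) j
      have a2 := Nat.choose_mul_succ_eq (2 * j + 1) j
      rw [show 2 * j + 1 + 1 - j = j + 2 by omega] at a2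
      have : ((2 * j + 3).choose (j + 1) * (j + 2)) * (j + 1) =
          (2 * (2 * j + 3) * (2 * j + 1).choose j) * (j + 1) := by
        calc ((2 * j + 3).choose (j + 1) * (j + 2)) * (j + 1)
            = ((2 * j + 2 + 1).choose (j + 1) * (j + 1)) * (j + 2) := by ring
          _ = ((2 * j + 2 + 1) * (2 * j + 2).choose j) * (j + 2) := by rw [← a1]
          _ = (2 * j + 3) * ((2 * j + 1 + 1).choose j * (j + 2)) := by ring
          _ = (2 * j + 3) * ((2 * j + 1).choose j * (2 * j + 1 + 1)) := by rw [← a2]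
          _ = _ := by ring
      exact Nat.eq_of_mul_eq_mul_right (by omega) this
    have x1 : (4 * j + 5).choose (2 * j + 2) * ((2 * j + 3) * (j + 1)) =
        2 * (4 * j + 5) * (4 * j + 3) * (4 * j + 1).choose (2 * j) := by
      have a1 := Nat.add_one_mul_choose_eq (4 * j + 4) (2 * j + 1)
      have a2 := Nat.add_one_mul_choose_eq (4 * j + 3) (2 * j)
      have a3 := Nat.choose_mul_succ_eq (4 * j + 2) (2 * j)
      have a4 := Nat.choose_mul_succ_eq (4 * j + 1) (2 * j)
      rw [show 4 * j + 2 + 1 - 2 * j = 2 * j + 3 by omega] at a3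
      rw [show 4 * j + 1 + 1 - 2 * j = 2 * j + 2 by omega] at a4
      have : ((4 * j + 5).choose (2 * j + 2) * ((2 * j + 3) * (j + 1))) * (4 * (j + 1) * (2 * j + 1)) =
          (2 * (4 * j + 5) * (4 * j + 3) * (4 * j + 1).choose (2 * j)) * (4 * (j + 1) * (2 * j + 1)) := by
        calc ((4 * j + 5).choose (2 * j + 2) * ((2 * j + 3) * (j + 1))) * (4 * (j + 1) * (2 * j + 1))
            = ((4 * j + 4 + 1).choose (2 * j + 1 + 1) * (2 * j + 1 + 1)) *
              (2 * (2 * j + 3) * (j + 1) * (2 * j + 1)) := by ring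
          _ = ((4 * j + 4 + 1) * (4 * j + 4).choose (2 * j + 1)) *
              (2 * (2 * j + 3) * (j + 1) * (2 * j + 1)) := by rw [← a1]
          _ = ((4 * j + 3 + 1).choose (2 * j + 1) * (2 * j + 1)) * 
              (2 * (4 * j + 5) * (2 * j + 3) * (j + 1)) := by ring
          _ = ((4 * j + 3 + 1) * (4 * j + 3).choose (2 * j)) * 
              (2 * (4 * j + 5) * (2 * j + 3) * (j + 1)) := by rw [← a2]
          _ = ((4 * j + 2 + 1).choose (2 * j) * (2 * j + 3)) * 
              (8 * (4 * j + 5) * (j + 1) * (j + 1)) := by ring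
          _ = ((4 * j + 2).choose (2 * j) * (4 * j + 2 + 1)) * 
              (8 * (4 * j + 5) * (j + 1) * (j + 1)) := by rw [← a3]
          _ = ((4 * j + 1 + 1).choose (2 * j) * (2 * j + 2)) *
              (4 * (4 * j + 3) * (4 * j + 5) * (j + 1)) := by ring
          _ = ((4 * j + 1).choose (2 * j) * (4 * j + 1 + 1)) *
              (4 * (4 * j + 3) * (4 * j + 5) * (j + 1)) := by rw [← a4]
          _ = _ := by ring
      exact Nat.eq_of_mul_eq_mul_right (by positivity) this
    rw [show 4 * (j + 1) + 1 = 4 * j + 5 by ring, show 2 * (j + 1) = 2 * j + 2 by ring,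
      show 2 * j + 2 + 1 = 2 * j + 3 by ring, show j + 1 + 1 = j + 2 by ring]
    set x := (4 * j + 1).choose (2 * j)
    set y := (2 * j + 1).choose j
    set x' := (4 * j + 5).choose (2 * j + 2)
    set y' := (2 * j + 3).choose (j + 1)
    have key : (4 * j + 5) * (4 * j + 3) * (j + 2) ≤ 2 * (2 * j + 3) ^ 3 := by nlinarith
    have hpos : 0 < (j + 2) * ((2 * j + 3) * (j + 1)) := by positivity
    refine lt_of_mul_lt_mul_left ?_ (Nat.zero_le ((j + 2) * ((2 * j + 3) * (j + 1))))
    calc (j + 2) * ((2 * j + 3) * (j + 1)) * (3 * x')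
        = (j + 2) * 3 * (x' * ((2 * j + 3) * (j + 1))) := by ring
      _ = (j + 2) * 3 * (2 * (4 * j + 5) * (4 * j + 3) * x) := by rw [x1]
      _ = (2 * (4 * j + 5) * (4 * j + 3) * (j + 2)) * (3 * x) := by ring
      _ < (2 * (4 * j + 5) * (4 * j + 3) * (j + 2)) * ((j + 1) * y ^ 2) :=
          Nat.mul_lt_mul_of_pos_left ih (by positivity)
      _ = ((4 * j + 5) * (4 * j + 3) * (j + 2)) * (2 * (j + 1) * y ^ 2) := by ring
      _ ≤ (2 * (2 * j + 3) ^ 3) * (2 * (j + 1) * y ^ 2) := Nat.mul_le_mul_right _ key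
      _ = (2 * j + 3) * (j + 1) * (2 * (2 * j + 3) * y) ^ 2 := by ring
      _ = (2 * j + 3) * (j + 1) * (y' * (j + 2)) ^ 2 := by rw [y1]
      _ = (j + 2) * ((2 * j + 3) * (j + 1)) * ((j + 2) * y' ^ 2) := by ring

lemma m2_lt (j : ℕ) (hj : 4 ≤ j) :
    m2 (4 * j + 3) (2 * j) < (4 * j + 1).choose (2 * j - 1) * 2 := by
  have h1 : m2 (4 * j + 3) (2 * j) + 1 =
      ∑ l ∈ Finset.range (j + 1), (2 * j + 2).choose l * (2 * j + 1).choose l := by
    rw [m2, show 2 * j / 2 = j by omega, show (4 * j + 3 + 1) / 2 = 2 * j + 2 by omega,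
      show (4 * j + 3) / 2 = 2 * j + 1 by omega, Finset.sum_range_succ']
    simp only [Nat.choose_zero_right, mul_one]
    congr 1
    rw [Finset.range_eq_Ico, Finset.sum_Ico_add' (fun l => (2 * j + 2).choose l *
      (2 * j + 1).choose l) 0 j 1]
    rfl
  have h2 := half_sum j
  rw [← h1] at h2
  have h3 := growth j hj
  have h4 : (4 * j + 3).choose (2 * j + 1) =
      3 * (4 * j + 1).choose (2 * j) + (4 * j + 1).choose (2 * j - 1) := by
    obtain ⟨i, rfl⟩ : ∃ i, j = i + 1 := ⟨j - 1, by omega⟩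
    rw [show 2 * (i + 1) - 1 = 2 * i + 1 by omega, show 2 * (i + 1) = 2 * i + 2 by ring,
      show 4 * (i + 1) + 3 = 4 * i + 5 + 1 + 1 by ring, show 4 * (i + 1) + 1 = 4 * i + 5 by ring,
      Nat.choose_succ_succ (4 * i + 5 + 1), Nat.choose_succ_succ (4 * i + 5) (2 * i + 1),
      Nat.choose_succ_succ (4 * i + 5) (2 * i + 1 + 1)]
    have : (4 * i + 5).choose (2 * i + 1 + 1 + 1) = (4 * i + 5).choose (2 * i + 2) := by
      rw [← Nat.choose_symm (n := 4 * i + 5) (k := 2 * i + 2) (by omega)]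
      congr 1
      omega
    rw [this]
    ring
  have h5 : (4 * j + 1).choose (2 * j) * j = (4 * j + 1).choose (2 * j - 1) * (j + 1) := by
    have := Nat.choose_succ_right_eq (4 * j + 1) (2 * j - 1)
    rw [show 2 * j - 1 + 1 = 2 * j by omega, show 4 * j + 1 - (2 * j - 1) = 2 * j + 2 by omega]
      at this
    nlinarith
  set x := (4 * j + 1).choose (2 * j)
  set z := (4 * j + 1).choose (2 * j - 1)
  set y := (2 * j + 1).choose j
  rw [h4] at h2
  -- 2 (m + 1) + y^2 = 3 x + z, 3 x < (j+1) y^2, x j = z (j+1)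
  by_contra hcon
  push Not at hcon
  nlinarith


/-! ### Growth of `m2` in `n` -/

def W (n i : ℕ) : ℕ := ((n + 1) / 2).choose i * (n / 2).choose i

lemma W_step (n i : ℕ) : W (n + 1) i * (n / 2 + 1 - i) = W n i * (n / 2 + 1) := by
  have h := Nat.choose_mul_succ_eq (n / 2) i
  rcases Nat.even_or_odd' n with ⟨m, rfl | rfl⟩
  · rw [W, W, show (2 * m + 1 + 1) / 2 = m + 1 by omega, show (2 * m + 1) / 2 = m by omega]
    rw [show 2 * m / 2 = m by omega] at h ⊢
    calc (m + 1).choose i * m.choose i * (m + 1 - i)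
        = m.choose i * ((m + 1).choose i * (m + 1 - i)) := by ring
      _ = m.choose i * (m.choose i * (m + 1)) := by rw [← h]
      _ = _ := by ring
  · rw [W, W, show (2 * m + 1 + 1 + 1) / 2 = m + 1 by omega,
      show (2 * m + 1 + 1) / 2 = m + 1 by omega]
    rw [show (2 * m + 1) / 2 = m by omega] at h ⊢
    calc (m + 1).choose i * (m + 1).choose i * (m + 1 - i)
        = (m + 1).choose i * ((m + 1).choose i * (m + 1 - i)) := by ring
      _ = (m + 1).choose i * (m.choose i * (m + 1)) := by rw [← h]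
      _ = _ := by ring

lemma W_stepR (n i : ℕ) (hi : i ≤ n / 2) :
    (W (n + 1) i : ℝ) * (((n / 2 : ℕ) : ℝ) + 1 - i) = W n i * (((n / 2 : ℕ) : ℝ) + 1) := by
  have h := W_step n i
  have h2 : ((n / 2 + 1 - i : ℕ) : ℝ) = ((n / 2 : ℕ) : ℝ) + 1 - i := by
    rw [Nat.cast_sub (by omega)]
    push_cast
    ring
  rw [← h2]
  exact_mod_cast h

lemma aux {w w' M I c d : ℝ} (hw : 0 ≤ w) (hMI : 0 < M - I) (h : w' * (M - I) = w * M)
    (hc : M * c ≤ (M - I) * d) : w' * c ≤ w * d := by
  have h1 : w' * c * (M - I) ≤ w * d * (M - I) := by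
    have := mul_le_mul_of_nonneg_left hc hw
    calc w' * c * (M - I) = (w' * (M - I)) * c := by ring
      _ = w * (M * c) := by rw [h]; ring
      _ ≤ w * ((M - I) * d) := this
      _ = _ := by ring
  exact le_of_mul_le_mul_right h1 hMI

lemma m2_eq (n p : ℕ) : (m2 n (2 * p) : ℝ) = ∑ i ∈ Finset.Icc 1 p, (W n i : ℝ) := by
  rw [m2, show 2 * p / 2 = p by omega]
  simp [W]

/-- `m2 n k / C(n,k)` does not increase. -/
lemma m2_stepC (n p : ℕ) (hn : 2 * p ≤ n) :
    (m2 (n + 1) (2 * p) : ℝ) * (n + 1 - 2 * p) ≤ m2 n (2 * p) * (n + 1) := by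
  rw [m2_eq, m2_eq, Finset.sum_mul, Finset.sum_mul]
  refine Finset.sum_le_sum (fun i hi => ?_)
  rw [Finset.mem_Icc] at hi
  have hip : (i : ℝ) ≤ p := by exact_mod_cast hi.2
  have hpm : (p : ℝ) ≤ ((n / 2 : ℕ) : ℝ) := by
    have : p ≤ n / 2 := by omega
    exact_mod_cast this
  have hm : (n : ℝ) ≤ 2 * ((n / 2 : ℕ) : ℝ) + 1 := by
    have : n ≤ 2 * (n / 2) + 1 := by omega
    exact_mod_cast this
  refine aux (Nat.cast_nonneg _) ?_ (W_stepR n i (by omega)) ?_
  · linarith
  · have hp0 : (0 : ℝ) ≤ p := Nat.cast_nonneg _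
    have hn0 : (0 : ℝ) ≤ n := Nat.cast_nonneg _
    nlinarith

/-- Growth of `m2` for `n < 3k`. -/
lemma m2_stepH (n p : ℕ) (hp : 7 ≤ p) (hn : 4 * p + 3 ≤ n) (hn2 : n < 6 * p) :
    (m2 (n + 1) (2 * p) : ℝ) * (n - 2 * p) ≤ m2 n (2 * p) * (n - 1) := by
  have hp7 : (7 : ℝ) ≤ p := by exact_mod_cast hp
  rcases Nat.even_or_odd' n with ⟨m, rfl | rfl⟩
  · have hm1 : (2 * p + 2 : ℝ) ≤ m := by
      have : 2 * p + 2 ≤ m := by omega
      exact_mod_cast this
    have hm2 : (m + 1 : ℝ) ≤ 3 * p := by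
      have : m + 1 ≤ 3 * p := by omega
      exact_mod_cast this
    rw [m2_eq, m2_eq, Finset.sum_mul, Finset.sum_mul]
    refine Finset.sum_le_sum (fun i hi => ?_)
    rw [Finset.mem_Icc] at hi
    have hip : (i : ℝ) ≤ p := by exact_mod_cast hi.2
    have h := W_stepR (2 * m) i (by omega)
    rw [show 2 * m / 2 = m by omega] at h
    refine aux (Nat.cast_nonneg _) ?_ h ?_
    · linarith
    · push_cast
      nlinarith
  · have hm1 : (2 * p + 1 : ℝ) ≤ m := by
      have : 2 * p + 1 ≤ m := by omega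
      exact_mod_cast this
    have hm2 : (m + 1 : ℝ) ≤ 3 * p := by
      have : m + 1 ≤ 3 * p := by omega
      exact_mod_cast this
    rw [m2_eq, m2_eq]
    obtain ⟨q, rfl⟩ : ∃ q, p = q + 2 := ⟨p - 2, by omega⟩
    rw [Finset.sum_Icc_succ_top (by omega), Finset.sum_Icc_succ_top (by omega),
      Finset.sum_Icc_succ_top (by omega), Finset.sum_Icc_succ_top (by omega)]
    push_cast at hm1 hm2 hp7 ⊢
    have hs : (∑ i ∈ Finset.Icc 1 q, (W (2 * m + 1 + 1) i : ℝ)) * (2 * m + 1 - 2 * (q + 2)) ≤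
        (∑ i ∈ Finset.Icc 1 q, (W (2 * m + 1) i : ℝ)) * (2 * m + 1 - 1) := by
      rw [Finset.sum_mul, Finset.sum_mul]
      refine Finset.sum_le_sum (fun i hi => ?_)
      rw [Finset.mem_Icc] at hi
      have hip : (i : ℝ) ≤ q := by exact_mod_cast hi.2
      have h := W_stepR (2 * m + 1) i (by omega)
      rw [show (2 * m + 1) / 2 = m by omega] at h
      refine aux (Nat.cast_nonneg _) ?_ h ?_
      · linarith
      · nlinarith
    have hA := W_stepR (2 * m + 1) (q + 2) (by omega)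
    have hB := W_stepR (2 * m + 1) (q + 1) (by omega)
    rw [show (2 * m + 1) / 2 = m by omega] at hA hB
    push_cast at hA hB
    have hWA : (W (2 * m + 1 + 1) (q + 2) : ℝ) = ((m + 1).choose (q + 2) : ℝ) ^ 2 := by
      rw [W, show (2 * m + 1 + 1 + 1) / 2 = m + 1 by omega,
        show (2 * m + 1 + 1) / 2 = m + 1 by omega]
      push_cast
      ring
    have hWB : (W (2 * m + 1 + 1) (q + 1) : ℝ) = ((m + 1).choose (q + 1) : ℝ) ^ 2 := by
      rw [W, show (2 * m + 1 + 1 + 1) / 2 = m + 1 by omega,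
        show (2 * m + 1 + 1) / 2 = m + 1 by omega]
      push_cast
      ring
    have hAB : ((m + 1).choose (q + 2) : ℝ) * (q + 2) = (m + 1).choose (q + 1) * (m - q) := by
      have h1 := Nat.choose_succ_right_eq (m + 1) (q + 1)
      have h2 : ((m + 1 - (q + 1) : ℕ) : ℝ) = m - q := by
        rw [Nat.cast_sub (by omega)]
        push_cast
        ring
      rw [← h2]
      exact_mod_cast h1
    rw [hWA] at hA ⊢
    rw [hWB] at hB ⊢
    set A : ℝ := ((m + 1).choose (q + 2) : ℝ)
    set B : ℝ := ((m + 1).choose (q + 1) : ℝ)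
    set a : ℝ := (W (2 * m + 1) (q + 2) : ℝ)
    set b : ℝ := (W (2 * m + 1) (q + 1) : ℝ)
    -- p = q + 2
    have hpoly : ((m : ℝ) - q) ^ 2 * (m + 1 - 2 * (q + 2)) ≤ (q + 2) ^ 2 * (m + 2 * (q + 2) - 1) := by
      have e1 : (0 : ℝ) ≤ 3 * (q + 2) - 1 - m := by linarith
      set s : ℝ := 3 * (q + 2) - 1 - m with hs'
      set P : ℝ := q + 2 with hP
      have em : (m : ℝ) = 3 * P - 1 - s := by rw [hs']; ring
      have eq' : (q : ℝ) = P - 2 := by rw [hP]; ring
      rw [em, eq']
      have e2 : s ≤ P - 2 := by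
        rw [hs']
        linarith
      have e3 : (3 * P - 1 - s - (P - 2)) ^ 2 ≤ (2 * P + 1) ^ 2 := by
        apply pow_le_pow_left₀ (by linarith)
        linarith
      have e4 : (0 : ℝ) ≤ 3 * P - 1 - s + 1 - 2 * P := by linarith
      have e5 := mul_le_mul_of_nonneg_right e3 e4
      have e6 : (0 : ℝ) ≤ P ^ 3 - 6 * P ^ 2 - P := by
        have : P ^ 3 - 6 * P ^ 2 - P = P * ((P - 7) ^ 2 + 8 * (P - 7) + 6) := by ring
        rw [this]
        have : 0 ≤ P - 7 := by linarith
        positivity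
      have e7 : (0 : ℝ) ≤ s * (3 * P ^ 2 + 4 * P + 1) := by
        have : 0 ≤ P := by linarith
        positivity
      nlinarith
    have hAB2 : A ^ 2 * (m + 1 - 2 * (q + 2)) ≤ B ^ 2 * (m + 2 * (q + 2) - 1) := by
      have e1 : A ^ 2 * (m + 1 - 2 * (q + 2)) * (q + 2 : ℝ) ^ 2 ≤
          B ^ 2 * (m + 2 * (q + 2) - 1) * (q + 2 : ℝ) ^ 2 := by
        calc A ^ 2 * (m + 1 - 2 * (q + 2)) * (q + 2 : ℝ) ^ 2
            = (A * (q + 2)) ^ 2 * (m + 1 - 2 * (q + 2)) := by ring
          _ = B ^ 2 * (((m : ℝ) - q) ^ 2 * (m + 1 - 2 * (q + 2))) := by rw [hAB]; ring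
          _ ≤ B ^ 2 * ((q + 2) ^ 2 * (m + 2 * (q + 2) - 1)) :=
              mul_le_mul_of_nonneg_left hpoly (sq_nonneg _)
          _ = _ := by ring
      exact le_of_mul_le_mul_right e1 (by positivity)
    have hm0 : (0 : ℝ) < m + 1 := by positivity
    have hpair : (B ^ 2 + A ^ 2) * (2 * m + 1 - 2 * (q + 2)) ≤ (b + a) * (2 * m + 1 - 1) := by
      refine le_of_mul_le_mul_right ?_ hm0
      calc (B ^ 2 + A ^ 2) * (2 * m + 1 - 2 * (q + 2)) * (m + 1)
          = (B ^ 2 * (m + 1 - (q + 1)) + A ^ 2 * (m + 1 - (q + 2))) * (2 * m) +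
            (A ^ 2 * (m + 1 - 2 * (q + 2)) - B ^ 2 * (m + 2 * (q + 2) - 1)) := by ring
        _ ≤ (B ^ 2 * (m + 1 - (q + 1)) + A ^ 2 * (m + 1 - (q + 2))) * (2 * m) := by linarith
        _ = (b + a) * (2 * m + 1 - 1) * (m + 1) := by rw [hA, hB]; ring
    linarith

lemma below (p : ℕ) (hp : 7 ≤ p) : ∀ n, 4 * p + 3 ≤ n → n ≤ 6 * p →
    m2 n (2 * p) < (n - 2).choose (2 * p - 1) * 2 := by
  intro n hn
  induction n, hn using Nat.le_induction with
  | base =>
    intro _
    exact m2_lt p (by omega)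
  | succ n hn ih =>
    intro hn2
    have h1 := ih (by omega)
    have h2 := m2_stepH n p hp hn (by omega)
    have h3 := Nat.choose_mul_succ_eq (n - 2) (2 * p - 1)
    rw [show n - 2 + 1 = n + 1 - 2 by omega, show n + 1 - 2 - (2 * p - 1) = n - 2 * p by omega] at h3
    have h4 : (m2 (n + 1) (2 * p)) * (n - 2 * p) ≤ m2 n (2 * p) * (n + 1 - 2) := by
      have e1 : ((n - 2 * p : ℕ) : ℝ) = n - 2 * p := by
        rw [Nat.cast_sub (by omega)]
        push_cast
        ring
      have e2 : ((n + 1 - 2 : ℕ) : ℝ) = n - 1 := by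
        rw [Nat.cast_sub (by omega)]
        push_cast
        ring
      rw [← e1, ← e2] at h2
      exact_mod_cast h2
    have h5 : m2 n (2 * p) * (n + 1 - 2) < (n - 2).choose (2 * p - 1) * 2 * (n + 1 - 2) :=
      Nat.mul_lt_mul_of_pos_right h1 (by omega)
    refine lt_of_mul_lt_mul_right (a := n - 2 * p) ?_ (Nat.zero_le _)
    calc m2 (n + 1) (2 * p) * (n - 2 * p) ≤ m2 n (2 * p) * (n + 1 - 2) := h4
      _ < (n - 2).choose (2 * p - 1) * 2 * (n + 1 - 2) := h5
      _ = ((n - 2).choose (2 * p - 1) * (n + 1 - 2)) * 2 := by ring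
      _ = (n + 1 - 2).choose (2 * p - 1) * 2 * (n - 2 * p) := by rw [h3]; ring

lemma above (p n₀ : ℕ) (X Y : ℕ) (h0 : 2 * p ≤ n₀) (h : m2 n₀ (2 * p) * X < n₀.choose (2 * p) * Y) :
    ∀ n, n₀ ≤ n → m2 n (2 * p) * X < n.choose (2 * p) * Y := by
  intro n hn
  induction n, hn using Nat.le_induction with
  | base => exact h
  | succ n hn ih =>
    have h2 := m2_stepC n p (by omega)
    have h3 := Nat.choose_mul_succ_eq n (2 * p)
    have h4 : (m2 (n + 1) (2 * p)) * (n + 1 - 2 * p) ≤ m2 n (2 * p) * (n + 1) := by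
      have e1 : ((n + 1 - 2 * p : ℕ) : ℝ) = n + 1 - 2 * p := by
        rw [Nat.cast_sub (by omega)]
        push_cast
        ring
      rw [← e1] at h2
      exact_mod_cast h2
    have h5 : m2 n (2 * p) * X * (n + 1) < n.choose (2 * p) * Y * (n + 1) :=
      Nat.mul_lt_mul_of_pos_right ih (by omega)
    refine lt_of_mul_lt_mul_right (a := n + 1 - 2 * p) ?_ (Nat.zero_le _)
    calc m2 (n + 1) (2 * p) * X * (n + 1 - 2 * p)
        = (m2 (n + 1) (2 * p) * (n + 1 - 2 * p)) * X := by ring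
      _ ≤ (m2 n (2 * p) * (n + 1)) * X := Nat.mul_le_mul_right _ h4
      _ = m2 n (2 * p) * X * (n + 1) := by ring
      _ < n.choose (2 * p) * Y * (n + 1) := h5
      _ = (n.choose (2 * p) * (n + 1)) * Y := by ring
      _ = (n + 1).choose (2 * p) * Y * (n + 1 - 2 * p) := by rw [h3]; ring

/-! ### Averaging -/

lemma swap (n a c : ℕ) : n.choose a * (n - a).choose c = n.choose c * (n - c).choose a := by
  by_cases h : a + c ≤ n
  · have h1 := Nat.choose_mul (n := n) (k := a + c) (s := a) (by omega)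
    have h2 := Nat.choose_mul (n := n) (k := a + c) (s := c) (by omega)
    rw [show a + c - a = c by omega] at h1
    rw [show a + c - c = a by omega] at h2
    rw [← h1, ← h2]
    congr 1
    rw [← Nat.choose_symm (n := a + c) (k := a) (by omega)]
    congr 1
    omega
  · have e : ∀ a c : ℕ, ¬ a + c ≤ n → n.choose a * (n - a).choose c = 0 := by
      intro a c h
      by_cases h2 : a ≤ n
      · rw [Nat.choose_eq_zero_of_lt (n := n - a) (k := c) (by omega), mul_zero]
      · rw [Nat.choose_eq_zero_of_lt (n := n) (k := a) (by omega), zero_mul]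
    rw [e a c h, e c a (by omega)]

lemma choose_id (n a c : ℕ) :
    (n + 1).choose (a + 1) * ((a + 1) * (n - a).choose c) =
      (c + 1) * (n + 1).choose (c + 1) * (n - c).choose a := by
  have h1 := Nat.add_one_mul_choose_eq n a
  have h2 := Nat.add_one_mul_choose_eq n c
  have h3 := swap n a c
  calc (n + 1).choose (a + 1) * ((a + 1) * (n - a).choose c)
      = ((n + 1).choose (a + 1) * (a + 1)) * (n - a).choose c := by ring
    _ = ((n + 1) * n.choose a) * (n - a).choose c := by rw [← h1]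
    _ = (n + 1) * (n.choose a * (n - a).choose c) := by ring
    _ = (n + 1) * (n.choose c * (n - c).choose a) := by rw [h3]
    _ = ((n + 1) * n.choose c) * (n - c).choose a := by ring
    _ = _ := by rw [h2]; ring

lemma avg (c r : ℕ) (hc : 1 ≤ c) : ∃ b, b ≤ c + r + 1 ∧
    (c + r + 1).choose (c + 1) * c ^ c ≤ b * (c + r + 1 - b).choose c * (c + 1) ^ c := by
  by_contra hcon
  push Not at hcon
  set n := c + r with hn
  have hsum1 : ∑ b ∈ Finset.range (n + 1 + 1), (n + 1).choose b * c ^ (n + 1 - b) =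
      (c + 1) ^ (n + 1) := by
    rw [add_comm c 1, add_pow]
    refine Finset.sum_congr rfl (fun b _ => ?_)
    simp
    ring
  have hsum2 : ∑ b ∈ Finset.range (n + 1 + 1),
      (n + 1).choose b * c ^ (n + 1 - b) * (b * (n + 1 - b).choose c) =
      (c + 1) * (n + 1).choose (c + 1) * c ^ c * (c + 1) ^ r := by
    rw [Finset.sum_range_succ']
    simp only [zero_mul, mul_zero, add_zero]
    have e1 : ∀ a ∈ Finset.range (n + 1), (n + 1).choose (a + 1) * c ^ (n + 1 - (a + 1)) *
        ((a + 1) * (n + 1 - (a + 1)).choose c) =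
        (c + 1) * (n + 1).choose (c + 1) * (r.choose a * c ^ (n - a)) := by
      intro a _
      have h := choose_id n a c
      rw [show n - c = r by omega] at h
      rw [show n + 1 - (a + 1) = n - a by omega]
      calc (n + 1).choose (a + 1) * c ^ (n - a) * ((a + 1) * (n - a).choose c)
          = ((n + 1).choose (a + 1) * ((a + 1) * (n - a).choose c)) * c ^ (n - a) := by ring
        _ = _ := by rw [h]; ring
    rw [Finset.sum_congr rfl e1, ← Finset.mul_sum]
    have e2 : ∑ a ∈ Finset.range (n + 1), r.choose a * c ^ (n - a) =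
        ∑ a ∈ Finset.range (r + 1), r.choose a * c ^ (n - a) := by
      symm
      apply Finset.sum_subset
      · intro x hx
        rw [Finset.mem_range] at hx ⊢
        omega
      · intro x _ hx
        rw [Finset.mem_range] at hx
        rw [Nat.choose_eq_zero_of_lt (by omega), zero_mul]
    have e3 : ∑ a ∈ Finset.range (r + 1), r.choose a * c ^ (n - a) = c ^ c * (c + 1) ^ r := by
      rw [add_comm c 1, add_pow, Finset.mul_sum]
      refine Finset.sum_congr rfl (fun a ha => ?_)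
      rw [Finset.mem_range] at ha
      rw [show n - a = c + (r - a) by omega, pow_add]
      simp
      ring
    rw [e2, e3]
    ring
  have hlt : ∑ b ∈ Finset.range (n + 1 + 1),
      (n + 1).choose b * c ^ (n + 1 - b) * (b * (n + 1 - b).choose c * (c + 1) ^ c) <
      ∑ b ∈ Finset.range (n + 1 + 1),
      (n + 1).choose b * c ^ (n + 1 - b) * ((n + 1).choose (c + 1) * c ^ c) := by
    apply Finset.sum_lt_sum_of_nonempty ⟨0, by simp⟩
    intro b hb
    rw [Finset.mem_range] at hb
    apply Nat.mul_lt_mul_of_pos_left (hcon b (by omega))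
    exact Nat.mul_pos (Nat.choose_pos (by omega)) (Nat.pow_pos (by omega))
  have hL : ∑ b ∈ Finset.range (n + 1 + 1),
      (n + 1).choose b * c ^ (n + 1 - b) * (b * (n + 1 - b).choose c * (c + 1) ^ c) =
      (c + 1) * (n + 1).choose (c + 1) * c ^ c * (c + 1) ^ r * (c + 1) ^ c := by
    rw [← hsum2, Finset.sum_mul]
    exact Finset.sum_congr rfl (fun b _ => by ring)
  rw [hL, ← Finset.sum_mul, hsum1] at hlt
  have : (c + 1) * (n + 1).choose (c + 1) * c ^ c * (c + 1) ^ r * (c + 1) ^ c =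
      (c + 1) ^ (n + 1) * ((n + 1).choose (c + 1) * c ^ c) := by
    rw [hn, pow_succ (c + 1) (c + r), pow_add]
    ring
  omega

lemma finish (p n : ℕ) (hp : 1 ≤ p) (hn : 2 * p ≤ n)
    (h : m2 n (2 * p) * (2 * p) ^ (2 * p - 1) < n.choose (2 * p) * (2 * p - 1) ^ (2 * p - 1)) :
    m2 n (2 * p) < N n (2 * p) := by
  obtain ⟨b, hb, hb2⟩ := avg (2 * p - 1) (n - 2 * p) (by omega)
  rw [show 2 * p - 1 + (n - 2 * p) + 1 = n by omega] at hb hb2
  rw [show 2 * p - 1 + 1 = 2 * p by omega] at hb2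
  have h1 : m2 n (2 * p) < (n - b).choose (2 * p - 1) * b := by
    refine lt_of_mul_lt_mul_right (a := (2 * p) ^ (2 * p - 1)) ?_ (Nat.zero_le _)
    calc _ < _ := h
      _ ≤ _ := hb2
      _ = _ := by ring
  have h2 := prod_le_N (n - b) b (2 * p) (by omega)
  rw [show n - b + b = n by omega] at h2
  exact h1.trans_le h2

/-! ### The base case `n = 3k` -/

lemma geo (p : ℕ) : ∀ r, r ≤ p →
    3 * ∑ i ∈ Finset.Icc 1 r, (3 * p).choose i * (3 * p).choose i ≤ 4 * (3 * p).choose r ^ 2 := by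
  intro r
  induction r with
  | zero => intro _; simp
  | succ r ih =>
    intro hr
    have h1 := ih (by omega)
    rw [Finset.sum_Icc_succ_top (by omega)]
    have h2 := Nat.choose_succ_right_eq (3 * p) r
    have h3 : 2 * (3 * p).choose r ≤ (3 * p).choose (r + 1) := by
      refine le_of_mul_le_mul_right (a := r + 1) ?_ (by omega)
      rw [h2]
      calc 2 * (3 * p).choose r * (r + 1) = (3 * p).choose r * (2 * (r + 1)) := by ring
        _ ≤ _ := Nat.mul_le_mul_left _ (by omega)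
    nlinarith

lemma expo (k : ℕ) (hk : 2 ≤ k) : k ^ (k - 1) * 10000 ≤ 27183 * (k - 1) ^ (k - 1) := by
  obtain ⟨c, rfl⟩ : ∃ c, k = c + 1 := ⟨k - 1, by omega⟩
  rw [show c + 1 - 1 = c by omega]
  have hc : (0 : ℝ) < c := by
    have : 0 < c := by omega
    exact_mod_cast this
  have h1 : ((1 : ℝ) / c + 1) ^ c ≤ Real.exp 1 := by
    calc ((1 : ℝ) / c + 1) ^ c ≤ (Real.exp (1 / c)) ^ c :=
          pow_le_pow_left₀ (by positivity) (Real.add_one_le_exp _) c
      _ = Real.exp 1 := by
          rw [← Real.exp_nat_mul]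
          congr 1
          field_simp
  have h2 := Real.exp_one_lt_d9
  have h3 : ((c : ℝ) + 1) ^ c ≤ 2.7183 * (c : ℝ) ^ c := by
    calc ((c : ℝ) + 1) ^ c = ((1 : ℝ) / c + 1) ^ c * (c : ℝ) ^ c := by
          rw [← mul_pow]
          congr 1
          field_simp
          ring
      _ ≤ 2.7183 * (c : ℝ) ^ c := by
          refine mul_le_mul_of_nonneg_right ?_ (by positivity)
          linarith
  have h4 : ((c : ℝ) + 1) ^ c * 10000 ≤ 27183 * (c : ℝ) ^ c := by linarith
  exact_mod_cast h4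

lemma ratio : ∀ p : ℕ, 7 ≤ p →
    (3 * p).choose p ^ 2 * 108732 < 30000 * (6 * p).choose (2 * p) := by
  intro p hp
  induction p, hp using Nat.le_induction with
  | base =>
    simp only [Nat.choose_eq_descFactorial_div_factorial]
    decide +kernel
  | succ p hp ih =>
    have f1 := Nat.add_one_mul_choose_eq (3 * p + 2) p
    have f2 := Nat.choose_mul_succ_eq (3 * p + 1) p
    have f3 := Nat.choose_mul_succ_eq (3 * p) p
    rw [show 3 * p + 1 + 1 - p = 2 * p + 2 by omega] at f2
    rw [show 3 * p + 1 - p = 2 * p + 1 by omega] at f3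
    have e1 := Nat.add_one_mul_choose_eq (6 * p + 5) (2 * p + 1)
    have e2 := Nat.add_one_mul_choose_eq (6 * p + 4) (2 * p)
    have e3 := Nat.choose_mul_succ_eq (6 * p + 3) (2 * p)
    have e4 := Nat.choose_mul_succ_eq (6 * p + 2) (2 * p)
    have e5 := Nat.choose_mul_succ_eq (6 * p + 1) (2 * p)
    have e6 := Nat.choose_mul_succ_eq (6 * p) (2 * p)
    rw [show 6 * p + 3 + 1 - 2 * p = 4 * p + 4 by omega] at e3
    rw [show 6 * p + 2 + 1 - 2 * p = 4 * p + 3 by omega] at e4
    rw [show 6 * p + 1 + 1 - 2 * p = 4 * p + 2 by omega] at e5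
    rw [show 6 * p + 1 - 2 * p = 4 * p + 1 by omega] at e6
    rw [show 3 * (p + 1) = 3 * p + 2 + 1 by ring, show 6 * (p + 1) = 6 * p + 5 + 1 by ring,
      show 2 * (p + 1) = 2 * p + 1 + 1 by ring]
    have g1 : ((3 * p + 2 + 1 : ℕ) : ℝ) * ((3 * p + 2).choose p : ℝ) =
      ((3 * p + 2 + 1).choose (p + 1) : ℝ) * ((p + 1 : ℕ) : ℝ) := by exact_mod_cast f1
    have g2 : ((3 * p + 1).choose p : ℝ) * ((3 * p + 1 + 1 : ℕ) : ℝ) =
      ((3 * p + 2).choose p : ℝ) * ((2 * p + 2 : ℕ) : ℝ) := by exact_mod_cast f2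
    have g3 : ((3 * p).choose p : ℝ) * ((3 * p + 1 : ℕ) : ℝ) =
      ((3 * p + 1).choose p : ℝ) * ((2 * p + 1 : ℕ) : ℝ) := by exact_mod_cast f3
    have k1 : ((6 * p + 5 + 1 : ℕ) : ℝ) * ((6 * p + 5).choose (2 * p + 1) : ℝ) =
      ((6 * p + 5 + 1).choose (2 * p + 1 + 1) : ℝ) * ((2 * p + 1 + 1 : ℕ) : ℝ) := by
      exact_mod_cast e1
    have k2 : ((6 * p + 4 + 1 : ℕ) : ℝ) * ((6 * p + 4).choose (2 * p) : ℝ) =
      ((6 * p + 5).choose (2 * p + 1) : ℝ) * ((2 * p + 1 : ℕ) : ℝ) := by exact_mod_cast e2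
    have k3 : ((6 * p + 3).choose (2 * p) : ℝ) * ((6 * p + 3 + 1 : ℕ) : ℝ) =
      ((6 * p + 4).choose (2 * p) : ℝ) * ((4 * p + 4 : ℕ) : ℝ) := by exact_mod_cast e3
    have k4 : ((6 * p + 2).choose (2 * p) : ℝ) * ((6 * p + 2 + 1 : ℕ) : ℝ) =
      ((6 * p + 3).choose (2 * p) : ℝ) * ((4 * p + 3 : ℕ) : ℝ) := by exact_mod_cast e4
    have k5 : ((6 * p + 1).choose (2 * p) : ℝ) * ((6 * p + 1 + 1 : ℕ) : ℝ) =
      ((6 * p + 2).choose (2 * p) : ℝ) * ((4 * p + 2 : ℕ) : ℝ) := by exact_mod_cast e5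
    have k6 : ((6 * p).choose (2 * p) : ℝ) * ((6 * p + 1 : ℕ) : ℝ) =
      ((6 * p + 1).choose (2 * p) : ℝ) * ((4 * p + 1 : ℕ) : ℝ) := by exact_mod_cast e6
    have ihR : ((3 * p).choose p : ℝ) ^ 2 * 108732 < 30000 * ((6 * p).choose (2 * p) : ℝ) := by
      exact_mod_cast ih
    suffices hgoal : ((3 * p + 2 + 1).choose (p + 1) : ℝ) ^ 2 * 108732 <
        30000 * ((6 * p + 5 + 1).choose (2 * p + 1 + 1) : ℝ) by exact_mod_cast hgoal
    push_cast at g1 g2 g3 k1 k2 k3 k4 k5 k6
    set X0 : ℝ := ((3 * p).choose p : ℝ)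
    set X1 : ℝ := ((3 * p + 1).choose p : ℝ)
    set X2 : ℝ := ((3 * p + 2).choose p : ℝ)
    set X3 : ℝ := ((3 * p + 2 + 1).choose (p + 1) : ℝ)
    set Z0 : ℝ := ((6 * p).choose (2 * p) : ℝ)
    set Z1 : ℝ := ((6 * p + 1).choose (2 * p) : ℝ)
    set Z2 : ℝ := ((6 * p + 2).choose (2 * p) : ℝ)
    set Z3 : ℝ := ((6 * p + 3).choose (2 * p) : ℝ)
    set Z4 : ℝ := ((6 * p + 4).choose (2 * p) : ℝ)
    set Z5 : ℝ := ((6 * p + 5).choose (2 * p + 1) : ℝ)
    set Z6 : ℝ := ((6 * p + 5 + 1).choose (2 * p + 1 + 1) : ℝ)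
    set P : ℝ := (p : ℝ)
    have hP : 0 ≤ P := Nat.cast_nonneg _
    have hX : X3 * ((P + 1) * (2 * P + 2) * (2 * P + 1)) =
        X0 * ((3 * P + 3) * (3 * P + 2) * (3 * P + 1)) := by
      linear_combination (-(2 * P + 2) * (2 * P + 1)) * g1 - (3 * P + 3) * (2 * P + 1) * g2 -
        (3 * P + 3) * (3 * P + 2) * g3
    have hZ : Z6 * ((2 * P + 2) * (2 * P + 1) * (4 * P + 4) * (4 * P + 3) * (4 * P + 2) *
        (4 * P + 1)) = Z0 * ((6 * P + 6) * (6 * P + 5) * (6 * P + 4) * (6 * P + 3) *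
        (6 * P + 2) * (6 * P + 1)) := by
      linear_combination
        (-(2 * P + 1) * (4 * P + 4) * (4 * P + 3) * (4 * P + 2) * (4 * P + 1)) * k1 -
        (6 * P + 6) * (4 * P + 4) * (4 * P + 3) * (4 * P + 2) * (4 * P + 1) * k2 -
        (6 * P + 6) * (6 * P + 5) * (4 * P + 3) * (4 * P + 2) * (4 * P + 1) * k3 -
        (6 * P + 6) * (6 * P + 5) * (6 * P + 4) * (4 * P + 2) * (4 * P + 1) * k4 -
        (6 * P + 6) * (6 * P + 5) * (6 * P + 4) * (6 * P + 3) * (4 * P + 1) * k5 -
        (6 * P + 6) * (6 * P + 5) * (6 * P + 4) * (6 * P + 3) * (6 * P + 2) * k6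
    set al : ℝ := (P + 1) * (2 * P + 2) * (2 * P + 1) with hal
    set be : ℝ := (3 * P + 3) * (3 * P + 2) * (3 * P + 1) with hbe
    set Ga : ℝ := (2 * P + 2) * (2 * P + 1) * (4 * P + 4) * (4 * P + 3) * (4 * P + 2) *
        (4 * P + 1) with hGa
    set De : ℝ := (6 * P + 6) * (6 * P + 5) * (6 * P + 4) * (6 * P + 3) *
        (6 * P + 2) * (6 * P + 1) with hDe
    have hpos : 0 < al ^ 2 * Ga := by positivity
    have hpoly : be ^ 2 * Ga ≤ De * al ^ 2 := by
      have : De * al ^ 2 - be ^ 2 * Ga =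
          144 * (3 * P + 2) * (3 * P + 1) * (P + 1) ^ 4 * (2 * P + 1) ^ 2 *
          (72 * P ^ 3 + 105 * P ^ 2 + 43 * P + 4) := by
        rw [hal, hbe, hGa, hDe]
        ring
      have h2 : 0 ≤ 144 * (3 * P + 2) * (3 * P + 1) * (P + 1) ^ 4 * (2 * P + 1) ^ 2 *
          (72 * P ^ 3 + 105 * P ^ 2 + 43 * P + 4) := by positivity
      linarith
    have hZ0 : 0 ≤ Z0 := Nat.cast_nonneg _
    have hbe0 : 0 < be := by positivity
    have hGa0 : 0 < Ga := by positivity
    refine lt_of_mul_lt_mul_right ?_ hpos.le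
    calc X3 ^ 2 * 108732 * (al ^ 2 * Ga) = (X3 * al) ^ 2 * 108732 * Ga := by ring
      _ = (X0 ^ 2 * 108732) * (be ^ 2 * Ga) := by rw [hX]; ring
      _ < (30000 * Z0) * (be ^ 2 * Ga) := by
          apply mul_lt_mul_of_pos_right ihR
          positivity
      _ ≤ (30000 * Z0) * (De * al ^ 2) := mul_le_mul_of_nonneg_left hpoly (by positivity)
      _ = 30000 * (Z0 * De) * al ^ 2 := by ring
      _ = 30000 * Z6 * (al ^ 2 * Ga) := by rw [← hZ]; ring

lemma base6 (p : ℕ) (hp : 7 ≤ p) : m2 (6 * p) (2 * p) * (2 * p) ^ (2 * p - 1) <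
    (6 * p).choose (2 * p) * (2 * p - 1) ^ (2 * p - 1) := by
  have h1 := geo p p le_rfl
  have h2 := expo (2 * p) (by omega)
  have h3 := ratio p hp
  have h4 : m2 (6 * p) (2 * p) = ∑ i ∈ Finset.Icc 1 p, (3 * p).choose i * (3 * p).choose i := by
    rw [m2, show 2 * p / 2 = p by omega, show (6 * p + 1) / 2 = 3 * p by omega,
      show 6 * p / 2 = 3 * p by omega]
  rw [← h4] at h1
  set m := m2 (6 * p) (2 * p)
  set X := (3 * p).choose p
  set Z := (6 * p).choose (2 * p)
  set E := (2 * p) ^ (2 * p - 1)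
  set F := (2 * p - 1) ^ (2 * p - 1)
  have hF : 0 < F := Nat.pow_pos (by omega)
  refine lt_of_mul_lt_mul_right (a := 30000) ?_ (by norm_num)
  calc m * E * 30000 = (3 * m) * (E * 10000) := by ring
    _ ≤ (4 * X ^ 2) * (27183 * F) := Nat.mul_le_mul h1 h2
    _ = (X ^ 2 * 108732) * F := by ring
    _ < (30000 * Z) * F := Nat.mul_lt_mul_of_pos_right h3 hF
    _ = Z * F * 30000 := by ring

lemma two_N (n p : ℕ) (hp : 1 ≤ p) (hn : 2 ≤ n)
    (h : m2 n (2 * p) < (n - 2).choose (2 * p - 1) * 2) : m2 n (2 * p) < N n (2 * p) := by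
  have h2 := prod_le_N (n - 2) 2 (2 * p) (by omega)
  rw [show n - 2 + 2 = n by omega] at h2
  exact h.trans_le h2


lemma b_N (n b p : ℕ) (hp : 1 ≤ p) (hn : b ≤ n)
    (h : m2 n (2 * p) < (n - b).choose (2 * p - 1) * b) : m2 n (2 * p) < N n (2 * p) := by
  have h2 := prod_le_N (n - b) b (2 * p) (by omega)
  rw [show n - b + b = n by omega] at h2
  exact h.trans_le h2

lemma case4 (n : ℕ) (hn : 13 ≤ n) : m2 n 4 < N n 4 := by
  rcases Nat.lt_or_ge n 25 with h | h
  · rcases Nat.lt_or_ge n 18 with h' | h'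
    · apply b_N n 3 2 (by omega) (by omega)
      interval_cases n <;> simp only [m2, Nat.choose_eq_descFactorial_div_factorial] <;>
        decide +kernel
    · apply b_N n 4 2 (by omega) (by omega)
      interval_cases n <;> simp only [m2, Nat.choose_eq_descFactorial_div_factorial] <;>
        decide +kernel
  · refine finish 2 n (by omega) (by omega) (above 2 25 _ _ (by omega) ?_ n h)
    simp only [m2, Nat.choose_eq_descFactorial_div_factorial]
    decide +kernel

lemma case6 (n : ℕ) (hn : 16 ≤ n) : m2 n 6 < N n 6 := by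
  rcases Nat.lt_or_ge n 23 with h | h
  · apply b_N n 2 3 (by omega) (by omega)
    interval_cases n <;> simp only [m2, Nat.choose_eq_descFactorial_div_factorial] <;>
      decide +kernel
  · refine finish 3 n (by omega) (by omega) (above 3 23 _ _ (by omega) ?_ n h)
    simp only [m2, Nat.choose_eq_descFactorial_div_factorial]
    decide +kernel

lemma case8 (n k : ℕ) (hk : Even k) (h8 : 8 ≤ k) (hn : 2 * k + 3 ≤ n) :
    m2 n k < N n k := by
  obtain ⟨p, hp⟩ := hk
  obtain rfl : k = 2 * p := by omega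
  rcases Nat.lt_or_ge p 7 with h7 | h7
  · have hp4 : 4 ≤ p := by omega
    interval_cases p
    · rcases Nat.lt_or_ge n 26 with h | h
      · apply two_N n 4 (by omega) (by omega)
        interval_cases n <;> simp only [m2, Nat.choose_eq_descFactorial_div_factorial] <;>
          decide +kernel
      · refine finish 4 n (by omega) (by omega) (above 4 26 _ _ (by omega) ?_ n h)
        simp only [m2, Nat.choose_eq_descFactorial_div_factorial]
        decide +kernel
    · rcases Nat.lt_or_ge n 30 with h | h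
      · apply two_N n 5 (by omega) (by omega)
        interval_cases n <;> simp only [m2, Nat.choose_eq_descFactorial_div_factorial] <;>
          decide +kernel
      · refine finish 5 n (by omega) (by omega) (above 5 30 _ _ (by omega) ?_ n h)
        simp only [m2, Nat.choose_eq_descFactorial_div_factorial]
        decide +kernel
    · rcases Nat.lt_or_ge n 36 with h | h
      · apply two_N n 6 (by omega) (by omega)
        interval_cases n <;> simp only [m2, Nat.choose_eq_descFactorial_div_factorial] <;>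
          decide +kernel
      · refine finish 6 n (by omega) (by omega) (above 6 36 _ _ (by omega) ?_ n h)
        simp only [m2, Nat.choose_eq_descFactorial_div_factorial]
        decide +kernel
  · rcases Nat.lt_or_ge n (6 * p) with h | h
    · exact two_N n p (by omega) (by omega) (below p h7 n (by omega) h.le)
    · exact finish p n (by omega) (by omega) (above p (6 * p) _ _ (by omega) (base6 p h7) n h)

/-- The balanced construction is not optimal for `k = 4`, `n ≥ 13`, for `k = 6`, `n ≥ 16`, and for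
every even `k ≥ 8` and every `n ≥ 2k + 3`. -/
theorem result (n k : ℕ) (h : (k = 4 ∧ 13 ≤ n) ∨ (k = 6 ∧ 16 ≤ n) ∨
    (Even k ∧ 8 ≤ k ∧ 2 * k + 3 ≤ n)) : m2 n k < N n k := by
  rcases h with ⟨rfl, h⟩ | ⟨rfl, h⟩ | ⟨h1, h2, h3⟩
  · exact case4 n h
  · exact case6 n h
  · exact case8 n k h1 h2 h3

end Pool.Agent.Results.MP_939498_co.BeyondTwoK
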