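import Mathlib

namespace Pool.Agent.Results.MP_939498_co.TwoAbove

/-- The `0/1` vector of a subset of the coordinates. -/
def vec {n : ℕ} (A : Finset (Fin n)) : Fin n → ℝ := fun i => if i ∈ A then 1 else 0

/-- Nonzero vertices of weight at most `k` whose real span contains no unit vector. -/
def Good (n k : ℕ) (M : Finset (Finset (Fin n))) : Prop :=
  (∀ A ∈ M, A.Nonempty ∧ A.card ≤ k) ∧
  ∀ i : Fin n, Pi.single i (1 : ℝ) ∉ Submodule.span ℝ (vec '' (M : Set (Finset (Fin n))))

noncomputable def N (n k : ℕ) : ℕ :=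
  sSup {c | ∃ M : Finset (Finset (Fin n)), Good n k M ∧ M.card = c}

def m2 (n k : ℕ) : ℕ := ∑ i ∈ Finset.Icc 1 (k / 2), ((n + 1) / 2).choose i * (n / 2).choose i

lemma le_N {n k : ℕ} {M : Finset (Finset (Fin n))} (h : Good n k M) : M.card ≤ N n k := by
  apply le_csSup
  · refine ⟨Fintype.card (Finset (Fin n)), ?_⟩
    rintro c ⟨M, -, rfl⟩
    exact Finset.card_le_univ M
  · exact ⟨M, h, rfl⟩

lemma functional {n k : ℕ} {M : Finset (Finset (Fin n))} (h : Good n k M) :
    ∃ f : Module.Dual ℝ (Fin n → ℝ), (∀ i, f (Pi.single i 1) ≠ 0) ∧ ∀ A ∈ M, f (vec A) = 0 := by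
  classical
  set U := Submodule.span ℝ (vec '' (M : Set (Finset (Fin n)))) with hU
  have key : ∀ s : Finset (Fin n), ∃ f : Module.Dual ℝ (Fin n → ℝ),
      (∀ i ∈ s, f (Pi.single i 1) ≠ 0) ∧ ∀ x ∈ U, f x = 0 := by
    intro s
    induction s using Finset.induction_on with
    | empty => exact ⟨0, by simp, by simp⟩
    | insert i s _ ih =>
      obtain ⟨f, hf1, hf2⟩ := ih
      obtain ⟨g, hg1, hg2⟩ := Submodule.exists_dual_map_eq_bot_of_notMem (h.2 i) inferInstance
      have hg3 : ∀ x ∈ U, g x = 0 := by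
        intro x hx
        have : g x ∈ U.map g := Submodule.mem_map_of_mem hx
        rw [hU, hg2, Submodule.mem_bot] at this
        exact this
      obtain ⟨c, hc⟩ := Infinite.exists_notMem_finset
        ((Finset.univ : Finset (Fin n)).image
          (fun j => -(f (Pi.single j 1)) / g (Pi.single j 1)))
      refine ⟨f + c • g, ?_, ?_⟩
      · intro j hj h0
        simp only [LinearMap.add_apply, LinearMap.smul_apply, smul_eq_mul] at h0
        by_cases hgj : g (Pi.single j 1) = 0
        · rw [hgj, mul_zero, add_zero] at h0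
          rcases Finset.mem_insert.1 hj with rfl | hj
          · exact hg1 hgj
          · exact hf1 j hj h0
        · apply hc
          rw [Finset.mem_image]
          refine ⟨j, Finset.mem_univ _, ?_⟩
          rw [div_eq_iff hgj]
          linarith
      · intro x hx
        simp [hf2 x hx, hg3 x hx]
  obtain ⟨f, h1, h2⟩ := key Finset.univ
  exact ⟨f, fun i => h1 i (Finset.mem_univ _),
    fun A hA => h2 _ (Submodule.subset_span ⟨A, hA, rfl⟩)⟩

lemma strict (q j : ℕ) (h : j ≠ q) (h2 : j ≤ 2 * q) : (2 * q).choose j < (2 * q).choose q := by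
  have low : ∀ j, j < q → (2 * q).choose j < (2 * q).choose q := by
    intro j hj
    have h1 := Nat.choose_succ_right_eq (2 * q) j
    have h3 : (2 * q).choose (j + 1) ≤ (2 * q).choose q := Nat.choose_le_centralBinom (j + 1) q
    refine lt_of_lt_of_le ?_ h3
    have hpos : 0 < (2 * q).choose j := Nat.choose_pos (by omega)
    refine lt_of_mul_lt_mul_right (a := j + 1) ?_ (by omega)
    rw [h1]
    exact Nat.mul_lt_mul_of_pos_left (by omega) hpos
  rcases lt_or_gt_of_ne h with h | h
  · exact low j h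
  · rw [← Nat.choose_symm h2]
    exact low _ (by omega)

lemma upper (q k : ℕ) (hq : 1 ≤ q) (hk : k < 2 * q) {M : Finset (Finset (Fin (2 * q)))}
    (h : Good (2 * q) k M) : M.card + 2 ≤ (2 * q).choose q := by
  classical
  obtain ⟨f, hf1, hf2⟩ := functional h
  set w : Fin (2 * q) → ℝ := fun i => f (Pi.single i 1) with hw
  have hvec : ∀ A : Finset (Fin (2 * q)), f (vec A) = ∑ i ∈ A, w i := by
    intro A
    have : vec A = ∑ i ∈ A, (Pi.single i 1 : Fin (2 * q) → ℝ) := by
      ext j
      simp [vec, Finset.sum_apply, Pi.single_apply]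
    rw [this, map_sum]
  set Neg : Finset (Fin (2 * q)) := Finset.univ.filter (fun i => w i < 0) with hNeg
  have hsum : ∀ A : Finset (Fin (2 * q)), ∑ i ∈ symmDiff A Neg, |w i| =
      ∑ i ∈ A, w i - ∑ i ∈ Neg, w i := by
    intro A
    have e : ∀ B : Finset (Fin (2 * q)), ∀ v : Fin (2 * q) → ℝ,
        ∑ i ∈ B, v i = ∑ i, if i ∈ B then v i else 0 := by
      intro B v
      simp
    rw [e _ (fun i => |w i|), e A, e Neg, ← Finset.sum_sub_distrib]
    refine Finset.sum_congr rfl (fun i _ => ?_)
    by_cases h1 : i ∈ A <;> by_cases h2 : w i < 0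
    · simp [Finset.mem_symmDiff, hNeg, h1, h2]
    · have h3 : 0 ≤ w i := not_lt.1 h2
      simp [Finset.mem_symmDiff, hNeg, h1, h2, abs_of_nonneg h3]
    · simp [Finset.mem_symmDiff, hNeg, h1, h2, abs_of_neg h2]
    · simp [Finset.mem_symmDiff, hNeg, h1, h2]
  set F : Finset (Finset (Fin (2 * q))) := (insert ∅ M).image (fun A => symmDiff A Neg) with hF
  have hzero : ∀ A ∈ insert ∅ M, ∑ i ∈ A, w i = 0 := by
    intro A hA
    rcases Finset.mem_insert.1 hA with rfl | hA
    · simp
    · rw [← hvec, hf2 A hA]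
  have hanti : IsAntichain (· ⊆ ·) (F : Set (Finset (Fin (2 * q)))) := by
    intro B hB C hC hne hsub
    rw [Finset.mem_coe, hF, Finset.mem_image] at hB hC
    obtain ⟨A, hA, rfl⟩ := hB
    obtain ⟨A', hA', rfl⟩ := hC
    have h1 := hsum A
    have h2 := hsum A'
    rw [hzero A hA] at h1
    rw [hzero A' hA'] at h2
    obtain ⟨x, hx1, hx2⟩ := Finset.exists_of_ssubset (hsub.ssubset_of_ne hne)
    have h3 : ∑ i ∈ symmDiff A Neg, |w i| < ∑ i ∈ symmDiff A' Neg, |w i| :=
      Finset.sum_lt_sum_of_subset hsub hx1 hx2 (abs_pos.2 (hf1 x)) (fun _ _ _ => abs_nonneg _)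
    linarith
  have hemp : ∅ ∉ M := fun h0 => by
    have := (h.1 ∅ h0).1
    simp at this
  have hFc : F.card = M.card + 1 := by
    rw [hF, Finset.card_image_of_injective _ (symmDiff_left_injective Neg),
      Finset.card_insert_of_notMem hemp]
  by_contra hcon
  push Not at hcon
  have hFc2 : (2 * q).choose q ≤ F.card := by omega
  have hlym := Finset.lubell_yamamoto_meshalkin_inequality_sum_inv_choose (𝕜 := ℚ) hanti
  rw [Fintype.card_fin] at hlym
  have hcpos : (0 : ℚ) < ((2 * q).choose q : ℚ) := by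
    exact_mod_cast Nat.choose_pos (by omega)
  have hsized : ∀ B ∈ F, B.card = q := by
    by_contra hex
    push Not at hex
    obtain ⟨B, hB, hBq⟩ := hex
    have hlt : ∑ s ∈ F, (((2 * q).choose q : ℚ))⁻¹ < ∑ s ∈ F, (((2 * q).choose s.card : ℚ))⁻¹ := by
      apply Finset.sum_lt_sum
      · intro s _
        apply inv_anti₀
        · exact_mod_cast Nat.choose_pos ((Finset.card_le_univ s).trans (by simp))
        · exact_mod_cast Nat.choose_le_centralBinom s.card q
      · refine ⟨B, hB, ?_⟩
        have hle : B.card ≤ 2 * q := (Finset.card_le_univ B).trans (by simp)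
        apply inv_strictAnti₀
        · exact_mod_cast Nat.choose_pos hle
        · exact_mod_cast strict q B.card hBq hle
    rw [Finset.sum_const, nsmul_eq_mul] at hlt
    have h1 : (1 : ℚ) ≤ F.card * (((2 * q).choose q : ℚ))⁻¹ := by
      rw [← div_eq_mul_inv, le_div_iff₀ hcpos, one_mul]
      exact_mod_cast hFc2
    linarith
  have hFeq : F = Finset.powersetCard q Finset.univ := by
    apply Finset.eq_of_subset_of_card_le
    · intro B hB
      rw [Finset.mem_powersetCard]
      exact ⟨Finset.subset_univ _, hsized B hB⟩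
    · rw [Finset.card_powersetCard, Finset.card_univ, Fintype.card_fin]
      exact hFc2
  have hNegc : Neg.card = q := by
    apply hsized
    rw [hF, Finset.mem_image]
    exact ⟨∅, Finset.mem_insert_self _ _, by simp⟩
  have hcompl : Negᶜ ∈ F := by
    rw [hFeq, Finset.mem_powersetCard]
    refine ⟨Finset.subset_univ _, ?_⟩
    rw [Finset.card_compl, Fintype.card_fin, hNegc]
    omega
  rw [hF, Finset.mem_image] at hcompl
  obtain ⟨A, hA, hAe⟩ := hcompl
  have hAu : A = Finset.univ := by
    ext i
    have := Finset.ext_iff.1 hAe i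
    rw [Finset.mem_symmDiff, Finset.mem_compl] at this
    simp only [Finset.mem_univ, iff_true]
    tauto
  rcases Finset.mem_insert.1 hA with h0 | h0
  · rw [hAu] at h0
    have := congrArg Finset.card h0
    simp at this
    omega
  · have := (h.1 A h0).2
    rw [hAu, Finset.card_univ, Fintype.card_fin] at this
    omega

lemma lower (q : ℕ) : ∑ i ∈ Finset.Icc 1 (q - 1), q.choose i * q.choose i ≤
    N (q + q) (2 * (q - 1)) := by
  classical
  set D : Finset (Finset (Fin q) × Finset (Fin q)) :=
    (Finset.Icc 1 (q - 1)).biUnion (fun i =>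
      Finset.powersetCard i Finset.univ ×ˢ Finset.powersetCard i Finset.univ) with hD
  have hDm : ∀ p ∈ D, p.1.card = p.2.card ∧ 1 ≤ p.1.card ∧ p.1.card ≤ q - 1 := by
    intro p hp
    rw [hD, Finset.mem_biUnion] at hp
    obtain ⟨i, hi, hp⟩ := hp
    rw [Finset.mem_product, Finset.mem_powersetCard, Finset.mem_powersetCard] at hp
    rw [Finset.mem_Icc] at hi
    exact ⟨hp.1.2.trans hp.2.2.symm, by omega, by omega⟩
  have hDc : D.card = ∑ i ∈ Finset.Icc 1 (q - 1), q.choose i * q.choose i := by
    rw [hD, Finset.card_biUnion]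
    · simp
    · intro i _ j _ hij
      rw [Function.onFun, Finset.disjoint_left]
      rintro p hp hp'
      rw [Finset.mem_product, Finset.mem_powersetCard, Finset.mem_powersetCard] at hp hp'
      exact hij (hp.1.2.symm.trans hp'.1.2)
  set f : Finset (Fin q) × Finset (Fin q) → Finset (Fin (q + q)) := fun p =>
    p.1.map (Fin.castAddEmb q) ∪ p.2.map (Fin.natAddEmb q) with hf
  have hdisj : ∀ p : Finset (Fin q) × Finset (Fin q),
      Disjoint (p.1.map (Fin.castAddEmb q)) (p.2.map (Fin.natAddEmb q)) := by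
    intro p
    rw [Finset.disjoint_left]
    intro x hx hy
    simp only [Finset.mem_map, Fin.castAddEmb_apply, Fin.natAddEmb_apply] at hx hy
    obtain ⟨a, -, rfl⟩ := hx
    obtain ⟨b, -, hb⟩ := hy
    have := congrArg Fin.val hb
    simp at this
    omega
  have hinj : Function.Injective f := by
    rintro ⟨S, T⟩ ⟨S', T'⟩ h
    have h1 : ∀ (U W : Finset (Fin q)) (x : Fin q), Fin.castAdd q x ∈ f (U, W) ↔ x ∈ U := by
      intro U W x
      simp only [hf, Finset.mem_union, Finset.mem_map, Fin.castAddEmb_apply, Fin.natAddEmb_apply]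
      constructor
      · rintro (⟨z, hz, hx⟩ | ⟨z, -, hx⟩)
        · rwa [← (Fin.castAdd_inj).1 hx]
        · have := congrArg Fin.val hx
          simp at this
          omega
      · intro hx
        exact Or.inl ⟨x, hx, rfl⟩
    have h2 : ∀ (U W : Finset (Fin q)) (x : Fin q), Fin.natAdd q x ∈ f (U, W) ↔ x ∈ W := by
      intro U W x
      simp only [hf, Finset.mem_union, Finset.mem_map, Fin.castAddEmb_apply, Fin.natAddEmb_apply]
      constructor
      · rintro (⟨z, -, hx⟩ | ⟨z, hz, hx⟩)
        · have := congrArg Fin.val hx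
          simp at this
          omega
        · rwa [← (Fin.natAdd_inj q).1 hx]
      · intro hx
        exact Or.inr ⟨x, hx, rfl⟩
    have e1 : S = S' := by
      ext x
      rw [← h1 S T, h, h1]
    have e2 : T = T' := by
      ext x
      rw [← h2 S T, h, h2]
    rw [e1, e2]
  rw [← hDc, ← Finset.card_image_of_injective D hinj]
  apply le_N
  refine ⟨?_, ?_⟩
  · intro A hA
    rw [Finset.mem_image] at hA
    obtain ⟨p, hp, rfl⟩ := hA
    have h1 := hDm p hp
    have hc : (f p).card = p.1.card + p.2.card := by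
      rw [hf]
      simp only
      rw [Finset.card_union_of_disjoint (hdisj p), Finset.card_map, Finset.card_map]
    refine ⟨?_, by omega⟩
    rw [← Finset.card_pos]
    omega
  · set w : Fin (q + q) → ℝ := Fin.append (fun _ => 1) (fun _ => -1) with hw
    set φ : (Fin (q + q) → ℝ) →ₗ[ℝ] ℝ := ∑ i, w i • LinearMap.proj i with hφ
    have hφv : ∀ x, φ x = ∑ i, w i * x i := by
      intro x
      simp [hφ]
    have hle : Submodule.span ℝ (vec '' ((D.image f : Finset _) :
        Set (Finset (Fin (q + q))))) ≤ LinearMap.ker φ := by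
      rw [Submodule.span_le]
      rintro _ ⟨A, hA, rfl⟩
      rw [Finset.mem_coe, Finset.mem_image] at hA
      obtain ⟨p, hp, rfl⟩ := hA
      have hp1 := (hDm p hp).1
      rw [SetLike.mem_coe, LinearMap.mem_ker, hφv]
      have e1 : ∑ i, w i * vec (f p) i = ∑ i ∈ f p, w i := by
        simp [vec, Finset.sum_ite_mem]
      rw [e1, hf]
      simp only
      have a1 : ∀ x : Fin q, w (Fin.castAddEmb q x) = 1 := fun x => Fin.append_left _ _ x
      have a2 : ∀ x : Fin q, w (Fin.natAddEmb q x) = -1 := fun x => Fin.append_right _ _ x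
      rw [Finset.sum_union (hdisj p), Finset.sum_map, Finset.sum_map,
        Finset.sum_congr rfl (fun x _ => a1 x), Finset.sum_congr rfl (fun x _ => a2 x)]
      simp [hp1]
    intro i hi
    have h1 : φ (Pi.single i 1) = 0 := hle hi
    rw [hφv] at h1
    simp only [Pi.single_apply, mul_ite, mul_one, mul_zero, Finset.sum_ite_eq', Finset.mem_univ,
      if_true] at h1
    refine Fin.addCases (fun l => ?_) (fun l => ?_) i (motive := fun i => w i = 0 → False) h1
    · intro h
      have a1 : w (Fin.castAdd q l) = 1 := Fin.append_left _ _ l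
      rw [a1] at h
      norm_num at h
    · intro h
      have a2 : w (Fin.natAdd q l) = -1 := Fin.append_right _ _ l
      rw [a2] at h
      norm_num at h

lemma total (q : ℕ) (hq : 1 ≤ q) :
    ∑ i ∈ Finset.Icc 1 (q - 1), q.choose i * q.choose i + 2 = (2 * q).choose q := by
  obtain ⟨r, rfl⟩ : ∃ r, q = r + 1 := ⟨q - 1, by omega⟩
  have h1 : (2 * (r + 1)).choose (r + 1) =
      ∑ i ∈ Finset.range (r + 1 + 1), (r + 1).choose i * (r + 1).choose i := by
    rw [show 2 * (r + 1) = (r + 1) + (r + 1) by ring, Nat.add_choose_eq,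
      Finset.Nat.sum_antidiagonal_eq_sum_range_succ_mk]
    refine Finset.sum_congr rfl (fun i hi => ?_)
    rw [Finset.mem_range] at hi
    simp only
    rw [Nat.choose_symm (by omega)]
  rw [h1, Finset.sum_range_succ, Finset.sum_range_succ', show r + 1 - 1 = r by omega]
  simp only [Nat.choose_zero_right, Nat.choose_self, mul_one]
  rw [Finset.range_eq_Ico, Finset.sum_Ico_add' (fun l => (r + 1).choose l *
      (r + 1).choose l) 0 r 1]
  rfl

/-- `N(k+2,k) = m_2(k+2,k)` for every even `k ≥ 2`. -/
theorem result (k : ℕ) (hk : Even k) (h2 : 2 ≤ k) : N (k + 2) k = m2 (k + 2) k := by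
  obtain ⟨p, hp⟩ := hk
  obtain ⟨q, hq, hq2⟩ : ∃ q, k = 2 * (q - 1) ∧ 2 ≤ q := ⟨p + 1, by omega, by omega⟩
  subst hq
  rw [show 2 * (q - 1) + 2 = 2 * q by omega]
  have hm : m2 (2 * q) (2 * (q - 1)) = ∑ i ∈ Finset.Icc 1 (q - 1), q.choose i * q.choose i := by
    rw [m2, show 2 * (q - 1) / 2 = q - 1 by omega, show (2 * q + 1) / 2 = q by omega,
      show 2 * q / 2 = q by omega]
  have ht := total q (by omega)
  rw [hm]
  apply le_antisymm
  · apply csSup_le
    · refine ⟨0, ∅, ⟨by simp, fun i => ?_⟩, rfl⟩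
      simp
    · rintro c ⟨M, hM, rfl⟩
      have := upper q _ (by omega) (by omega) hM
      omega
  · have := lower q
    rwa [show q + q = 2 * q by ring] at this

end Pool.Agent.Results.MP_939498_co.TwoAbove
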